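import Pool.Agent.helper37.ND.Spec

/-! # Row nd:GIL (MP_baa4d7_al): integrality of the star construction at the other primes -/

set_option autoImplicit false

namespace Pool.Agent.ND

open Pool.Agent.helper58.DC Pool.Agent.DI Pool.Agent.GR Pool.Agent.OB Pool.Agent.DR Pool.Agent.FI Pool.Agent.FI3 Pool.Agent.FI4 Pool.Agent.FI4I Pool.Agent.LE Pool.Agent.L5 Pool.Agent.NAB

theorem GIL_lam {G : Type} [Group G] (Z : Subgroup G) (t : ℕ) (ν : Z →* ℂˣ) (g h : G) (e : g ^ t = h ^ t) :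
    lam Z t ν g = lam Z t ν h := by
  unfold lam
  by_cases hz : h ^ t ∈ Z
  · have hz' : g ^ t ∈ Z := by rw [e]; exact hz
    have h1 : (⟨g ^ t, hz'⟩ : Z) = ⟨h ^ t, hz⟩ := Subtype.ext e
    rw [dif_pos hz, dif_pos hz', h1]
  · rw [dif_neg hz, dif_neg (by rw [e]; exact hz)]

theorem GIL (hBLI : BLI_stmt) (hAVG : AVG_stmt) (hZLM : ZLM_stmt) (hB2 : B2_stmt) : GIL_stmt := by
  intro p e t hp q M' hS hqp G _ _ hT Z ν θ hθ θ' hθ'
  obtain ⟨L, hL⟩ : ∃ L : Subgroup G, L = cz Z := ⟨_, rfl⟩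
  obtain ⟨-, -, z3, -, -, z6, -⟩ := hZLM p e t hp G hT Z ν
  rw [← hL] at hθ hθ' z3 ⊢
  obtain ⟨-, bθ⟩ := hB2 G L
  obtain ⟨-, c1, i1, -, -⟩ := bθ θ hθ
  obtain ⟨-, c2, i2, -, -⟩ := bθ θ' hθ'
  have key := hBLI q M' hS L (fun g => lam Z t ν (g : G) * θ (g : G) * θ' (g : G)⁻¹) 0 (by
    intro g h
    have e1 : ((h * g * h⁻¹ : L) : G) = (h : G) * g * (h : G)⁻¹ := rfl
    have e2 : ((h : G) * g * (h : G)⁻¹)⁻¹ = (h : G) * (g : G)⁻¹ * (h : G)⁻¹ := by group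
    change lam Z t ν ((h * g * h⁻¹ : L) : G) * θ ((h * g * h⁻¹ : L) : G) * θ' ((h * g * h⁻¹ : L) : G)⁻¹ = _
    rw [e1, e2, z3 _ h.2, c1 _ _ h.2, c2 _ _ h.2]) (by
    intro g
    rw [pow_zero, one_mul]
    exact IntAt.of_isIntegral hS (((z6 _).mul (i1 _)).mul (i2 _))) (by
    intro y hy Q hQ hQy
    obtain ⟨R, hR⟩ : ∃ R : Subgroup G, R = Q.map L.subtype := ⟨_, rfl⟩
    have hRL : R ≤ L := by
      rw [hR]
      exact Subgroup.map_subtype_le Q
    have hRy : ∀ v ∈ R, v * (y : G) = y * v := by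
      intro v hv
      rw [hR] at hv
      obtain ⟨u, hu, rfl⟩ := Subgroup.mem_map.1 hv
      exact congrArg Subtype.val (hQy u hu)
    have h1 := hAVG G L R hRL (fun _ => 1) (fun _ _ _ _ => (one_mul 1).symm) rfl θ' hθ' θ hθ y y.2 y y.2 hRy hRy
    have hcard : Nat.card R = Nat.card Q := by
      rw [hR]
      exact (Nat.card_congr (Q.equivMapOfInjective L.subtype L.subtype_injective).toEquiv).symm
    have hsum : ∑ᶠ v ∈ (R : Set G), (1 : ℂ) * θ' (v * (y : G))⁻¹ * θ (v * (y : G)) =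
        ∑ᶠ u ∈ (Q : Set L), (1 : ℂ) * θ' ((u : G) * (y : G))⁻¹ * θ ((u : G) * (y : G)) := by
      rw [hR, Subgroup.coe_map]
      exact finsum_mem_image (fun a _ b _ h => Subtype.ext h)
    have hmain : ∑ᶠ u ∈ (Q : Set L), (fun g : L => lam Z t ν (g : G) * θ (g : G) * θ' (g : G)⁻¹) (u * y) =
        lam Z t ν (y : G) * ∑ᶠ u ∈ (Q : Set L), (1 : ℂ) * θ' ((u : G) * (y : G))⁻¹ * θ ((u : G) * (y : G)) := by
      rw [mul_finsum_mem]
      refine finsum_mem_congr rfl fun u hu => ?_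
      have hu1 : (u : G) ^ t = 1 := by
        apply hT.re
        obtain ⟨k, hk⟩ := hQ ⟨u, hu⟩
        have hk' : (u : G) ^ q ^ k = 1 := by
          have h2 := congrArg (fun x : Q => ((x : L) : G)) hk
          simpa using h2
        intro hdvd
        have h3 : p ∣ q ^ k := hdvd.trans (orderOf_dvd_of_pow_eq_one hk')
        have h4 := hp.dvd_of_dvd_pow h3
        exact hqp ((Nat.prime_dvd_prime_iff_eq hp hS.pr).1 h4).symm
      have hcm : Commute (u : G) (y : G) := congrArg Subtype.val (hQy u hu)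
      have h5 : lam Z t ν ((u : G) * (y : G)) = lam Z t ν (y : G) := by
        apply GIL_lam
        rw [hcm.mul_pow, hu1, one_mul]
      change lam Z t ν ((u : G) * (y : G)) * θ ((u : G) * (y : G)) * θ' ((u : G) * (y : G))⁻¹ = _
      rw [h5]
      ring
    rw [hmain]
    have h6 : (Nat.card Q : ℂ)⁻¹ * (lam Z t ν (y : G) * ∑ᶠ u ∈ (Q : Set L), (1 : ℂ) * θ' ((u : G) * (y : G))⁻¹ * θ ((u : G) * (y : G))) =
        lam Z t ν (y : G) * ((Nat.card R : ℂ)⁻¹ * ∑ᶠ v ∈ (R : Set G), (1 : ℂ) * θ' (v * (y : G))⁻¹ * θ (v * (y : G))) := by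
      rw [hsum, hcard]
      ring
    rw [h6]
    exact IntAt.of_isIntegral hS ((z6 _).mul h1))
  have hmt : mt L (st Z t ν θ) θ' = (Nat.card L : ℂ)⁻¹ * ∑ᶠ g : L, lam Z t ν (g : G) * θ (g : G) * θ' (g : G)⁻¹ := by
    unfold Pool.Agent.FI.mt st
    rw [div_eq_inv_mul, ← finsum_set_coe_eq_finsum_mem]
    rfl
  rw [hmt]
  exact key

end Pool.Agent.ND
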